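import Pool.Agent.N883.Q.Glue

/-!
# Beilinson's conjecture at the central point for `E ⊗ M`, `E : y² + y = x³`, and Galois extensions
# of prime power degree of the field of third roots of unity

`E` is the elliptic curve `y² + y = x³` over `ℚ`, `F` is the field of third roots of unity, `q ≥ 5` is
a prime number and `K` is a Galois extension of `ℚ` which contains `F`, of degree `q ^ n` over `F`, with
an Artin map of modulus `m` over `F`, where `m` is a positive integer, not divisible by `3` or by `q`,
such that the order of `E(𝔽_p)` is not divisible by `q` for any prime number `p` that divides `m`.  By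
class field theory these are all the fields `K` of degree `2 q ^ n` which are Galois over `ℚ`, abelian
over `F` and ramified over `F` only above prime numbers of this kind.  The Galois group of `K / ℚ` is
not abelian in general.

`M = ℤ^g` is a lattice with an arbitrary action `ρ` of the Galois group of `K / ℚ`, `g` arbitrary, and
`X = A = E ⊗ M`, an abelian variety over `ℚ` of dimension `g`.  For `M = ℤ[Gal(K/ℚ)]` it is the
restriction of scalars of `E` from `K` to `ℚ`; the `L`-function of `H¹(A)` is the `L`-function of `E`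
twisted by the representation `ρ`, whose components are not abelian in general.

We prove, for `i = m = 1`: the `L`-function of `A`, with all its Euler factors, is continued to a
meromorphic function on `ℂ`, analytic at `s = 1`; its order at `s = 1` is zero; `L(A, 1)` is a nonzero
rational multiple of the determinant of the period matrix `Π` of `A` (the height pairing is the one on
the zero space, since `A(ℚ)` is finite by the theorems of Coates-Wiles, Arthaud and Rubin when
`L(A, 1)` is not zero); and the rational number `L(A, 1) / Ω ^ g` is a unit at `q`, where `Ω` is the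
real period of `E`.
-/

set_option autoImplicit false

namespace Pool.Agent.Results.MP_29b22a_nt.PrimePowerTensor

open NumberField IsDedekindDomain WeierstrassCurve MeasureTheory

open Pool.Agent.Y696 (IsArtin)

/-- The curve `E : y² + y = x³`. -/
def curve : WeierstrassCurve ℤ := ⟨0, 0, 1, 0, 0⟩

/-- The curve given by the equation of `W` over the ring `R`. -/
abbrev base (W : WeierstrassCurve ℤ) (R : Type) [CommRing R] : WeierstrassCurve R :=
  W.map (Int.castRingHom R)

/-- The number of the affine points `(x, y)` over the ring `R`. -/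
noncomputable def pts (W : WeierstrassCurve ℤ) (R : Type) [CommRing R] : ℕ :=
  Nat.card {P : R × R // (base W R).toAffine.Equation P.1 P.2}

/-- `4 x³ + b₂ x² + 2 b₄ x + b₆ = (2 y + a₁ x + a₃)²`, where `b₂ = a₁² + 4 a₂`,
`b₄ = 2 a₄ + a₁ a₃`, `b₆ = a₃² + 4 a₆`. -/
def cubic (W : WeierstrassCurve ℤ) {R : Type} [CommRing R] (x : R) : R :=
  4 * x ^ 3 + W.b₂ * x ^ 2 + 2 * W.b₄ * x + W.b₆

/-- `∫_{W(ℝ)} |ω|` with `ω = dx / (2 y + a₁ x + a₃)`, as an integral over `x`: two real points lie
over each `x` with `cubic x > 0`. -/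
noncomputable def realPeriod (W : WeierstrassCurve ℤ) : ℝ :=
  2 * ∫ x in {x : ℝ | 0 < cubic W x}, 1 / √(cubic W x)

/-- `2 ∫_{W(ℂ)} |ω ∧ ω̄|`, where `|ω ∧ ω̄| = du dv` in a local parameter `z = u + i v` with
`dz = ω`, as an integral over `x`: two points lie over a general `x`, and `|ω ∧ ω̄|` is the area
element of the plane of `x` divided by `|cubic x|`. -/
noncomputable def complexPeriod (W : WeierstrassCurve ℤ) : ℝ := 2 * (2 * ∫ x : ℂ, 1 / ‖cubic W x‖)

section lattice

variable {K : Type} [Field K] [NumberField K] {g : ℕ} (ρ : (K ≃ₐ[ℚ] K) →* GL (Fin g) ℤ)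

/-- The Frobenius automorphisms at the place `v`: the automorphisms `σ` of `K` with
`σ x = x ^ p` modulo `v` for all the integers `x` of `K`, where `p` is the prime number below `v`.
They are a coset of the inertia group of `v`. -/
def FrobSet (v : HeightOneSpectrum (𝓞 K)) : Set (K ≃ₐ[ℚ] K) :=
  {σ | IsArithFrobAt ℤ σ v.asIdeal}

/-- The action of the Frobenius automorphism at `v` on the vectors of `ℂ^g` fixed by the inertia
group of `v`, extended by zero: the average of the matrices `ρ(σ)` over all the Frobenius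
automorphisms `σ` at `v`. -/
noncomputable def frob (v : HeightOneSpectrum (𝓞 K)) : Matrix (Fin g) (Fin g) ℂ :=
  (Nat.card (FrobSet v) : ℂ)⁻¹ •
    ∑ᶠ σ : FrobSet v, (ρ σ.1 : Matrix (Fin g) (Fin g) ℤ).map (Int.cast : ℤ → ℂ)

/-- The Euler factor of `L(A, s)` at the prime number `p`, `A = E ⊗ M`, where `v` is a place of `K`
above `p`: `det (1 - a_p p^(-s) Φ + p^(1 - 2 s) Φ²)⁻¹` for `Φ = frob ρ v`, without the last term if
`p` divides the discriminant of `E` (the curve is `y² + y = x³`, with additive reduction at `3`, where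
`a_3 = 0` and the factor is `1`); `a_p = p - pts` as `pts` does not count the point at infinity. -/
noncomputable def euler (W : WeierstrassCurve ℤ) (v : HeightOneSpectrum (𝓞 K)) (s : ℂ) (p : ℕ) :
    ℂ :=
  (1 - ((((p : ℤ) - pts W (ZMod p) : ℤ) : ℂ) * (p : ℂ) ^ (-s)) • frob ρ v +
    (if (p : ℤ) ∣ W.Δ then 0 else (p : ℂ) ^ (1 - 2 * s)) • frob ρ v ^ 2).det⁻¹

end lattice

section period

/-- The period `∫_γ ω` of the differential `ω = dx / (2 y + 1)` on a generator `γ` of the lattice of
the cycles of `E(ℂ)` with `γ^c = u γ`, `u = ± 1`, up to sign: the discriminant of `E` is negative, so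
that it is the real period `Ω` for `u = 1`, and for `u = -1` it is `i A`, where `Ω A` is twice the
area of the period parallelogram. -/
noncomputable def period (u : ℤˣ) : ℂ :=
  if u = 1 then (realPeriod curve : ℂ) else
    Complex.I * ((complexPeriod curve / realPeriod curve : ℝ) : ℂ)

variable {K : Type} [Field K] [NumberField K] {g : ℕ} (ρ : (K ≃ₐ[ℚ] K) →* GL (Fin g) ℤ)

/-- The columns of the matrix `B` are a basis of the space over `ℚ` of the invariant differentials of
`A = E ⊗ M` that are defined over `ℚ`.  Over `K` the variety `A` is `E^g`, and the column `b` is the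
differential `∑ b_j ω_j`, where `ω_j` is the differential `ω` in the coordinate `j`; as the automorphism
`σ` acts on the points of `A` by its action on the coordinates and the matrix `ρ(σ)`, the differential
is defined over `ℚ` if and only if `ρ(σ)ᵀ b = σ b` for all `σ`. -/
def IsFormBasis (B : Matrix (Fin g) (Fin g) K) : Prop :=
  B.det ≠ 0 ∧ ∀ σ : K ≃ₐ[ℚ] K,
    ((ρ σ : Matrix (Fin g) (Fin g) ℤ).map (Int.cast : ℤ → K)).transpose * B = B.map σ

/-- The rows of the matrix `C` are a basis of `M ⊗ ℚ`, and the row `i` is an eigenvector of the complex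
conjugation `c`, with the eigenvalue `ε i`.  The products of the rows and of the cycles on `E(ℂ)` with
the same signs are a basis over `ℚ` of the cycles on `A(ℂ)` fixed by the complex conjugation. -/
def IsCycleBasis (c : K ≃ₐ[ℚ] K) (C : Matrix (Fin g) (Fin g) ℚ) (ε : Fin g → ℤˣ) : Prop :=
  C.det ≠ 0 ∧ ∀ i, ((ρ c : Matrix (Fin g) (Fin g) ℤ).map (Int.cast : ℤ → ℚ)).mulVec (C i) =
    ((ε i : ℤ) : ℚ) • C i

/-- `P` is a period matrix `Π` of `A = E ⊗ M`, of
`F¹ H¹_DR(A / ℝ) → H¹(A / ℝ, ℝ)` in bases of the rational structures: the matrix of the integrals of a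
basis of the differentials over `ℚ` on a basis of the rational cycles fixed by the complex
conjugation.  Here `φ` is an embedding of `K` in the field of complex numbers. -/
def IsPeriodMatrix (φ : K →+* ℂ) (c : K ≃ₐ[ℚ] K) (P : Matrix (Fin g) (Fin g) ℂ) : Prop :=
  ∃ (B : Matrix (Fin g) (Fin g) K) (C : Matrix (Fin g) (Fin g) ℚ) (ε : Fin g → ℤˣ),
    IsFormBasis ρ B ∧ IsCycleBasis ρ c C ε ∧
      ∀ i k, P i k = period (ε i) * ∑ j, (C i j : ℂ) * φ (B j k)

end period

/-- **The statement** for `A = E ⊗ M` and the prime number `q`.  The `L`-function has all its Euler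
factors.  In `det`, `c` is the complex conjugation of `K` for the embedding `φ`; the period matrices
exist. -/
structure CentralValue {K : Type} [Field K] [NumberField K] {g : ℕ} (q : ℕ)
    (ρ : (K ≃ₐ[ℚ] K) →* GL (Fin g) ℤ) : Prop where
  pos : 0 < realPeriod curve ∧ 0 < complexPeriod curve
  matrix : ∀ (φ : K →+* ℂ) (c : K ≃ₐ[ℚ] K), (∀ x : K, φ (c x) = (starRingEnd ℂ) (φ x)) →
    ∃ P, IsPeriodMatrix ρ φ c P
  value : ∃ L : ℂ → ℂ, MeromorphicOn L Set.univ ∧
    (∀ V : Nat.Primes → HeightOneSpectrum (𝓞 K),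
      (∀ p : Nat.Primes, ((p : ℕ) : 𝓞 K) ∈ (V p).asIdeal) → ∀ s : ℂ, 3 / 2 < s.re →
      HasProd (fun p : Nat.Primes => euler ρ curve (V p) s p) (L s)) ∧
    AnalyticAt ℂ L 1 ∧ analyticOrderAt L 1 = 0 ∧
    (∃ r : ℚ, L 1 = r * realPeriod curve ^ g ∧ ¬ (q : ℤ) ∣ r.num ∧ ¬ q ∣ r.den) ∧
    ∀ (φ : K →+* ℂ) (c : K ≃ₐ[ℚ] K), (∀ x : K, φ (c x) = (starRingEnd ℂ) (φ x)) →
      ∀ P, IsPeriodMatrix ρ φ c P → ∃ r : ℚ, r ≠ 0 ∧ L 1 = r * P.det

/-- **Main theorem.** Let `F` be the field of third roots of unity, `q ≥ 5` a prime number and `K ⊇ F`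
a Galois extension of `ℚ`, of degree `q ^ n` over `F`, with an Artin map `art` over `F` of modulus `m`,
where the prime numbers `p` that divide `m` are different from `3` and `q` and the order
`pts + 1` of `E(𝔽_p)` is not divisible by `q`.  Let `ρ` be any action of the Galois group of `K / ℚ` on
`M = ℤ^g`, where `g` is arbitrary, and `A = E ⊗ M`, `E : y² + y = x³`.  Then `L(A, s)` is analytic and
not zero at `s = 1`, `L(A, 1)` is a nonzero rational multiple of the determinant of the period matrix
of `A`, and `L(A, 1) / Ω ^ g` is a rational number whose numerator and denominator are not divisible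
by `q`. -/
theorem result (F K : Type) [Field F] [NumberField F] [IsCyclotomicExtension {3} ℚ F] [Field K]
    [NumberField K] [Algebra F K] [IsGalois ℚ K] (q n : ℕ) (hq : q.Prime) (h5 : 5 ≤ q)
    (hn : Module.finrank F K = q ^ n) (m : ℕ)
    (hm : ∀ p : ℕ, p.Prime → p ∣ m → p ≠ 3 ∧ p ≠ q ∧ ¬ q ∣ pts curve (ZMod p) + 1)
    (art : (𝓞 F ⧸ Ideal.span {(m : 𝓞 F)})ˣ →* Gal(K/F)) (hart : IsArtin (m : 𝓞 F) art)
    (g : ℕ) (ρ : (K ≃ₐ[ℚ] K) →* GL (Fin g) ℤ) : CentralValue q ρ := by
  obtain ⟨h1, h2, h3, L, l1, l2, l3, l4, r, l5, l6, l7⟩ :=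
    Pool.Agent.N883.Q.main_part hq h5 hn hm hart ρ (Rp := realPeriod curve)
      (Cp := complexPeriod curve) rfl rfl
  have hr0 : r ≠ 0 := by
    rintro rfl
    rw [Rat.cast_zero, zero_mul] at l5
    exact l4 l5
  refine ⟨⟨h1, h2⟩, fun φ c hc => ?_, L, l1, fun V hV s hs => l2 V hV s hs, l3,
    analyticOrderAt_eq_zero.2 (Or.inr l4), ⟨r, l5, l6, l7⟩, fun φ c hc P hP => ?_⟩
  · obtain ⟨B, hB, hB'⟩ := Pool.Agent.N883.Q.exists_inv ρ
    have hcc : c * c = 1 := by
      apply AlgEquiv.ext
      intro x
      apply φ.injective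
      show φ (c (c x)) = φ x
      rw [hc, hc, Complex.conj_conj]
    obtain ⟨ε, C, hC, hC'⟩ := Pool.Agent.N883.Q.exists_eigen
      (P := (ρ c : Matrix (Fin g) (Fin g) ℤ).map (Int.cast : ℤ → ℚ)) (by
        have h4 : (ρ c : Matrix (Fin g) (Fin g) ℤ) * (ρ c : Matrix (Fin g) (Fin g) ℤ) = 1 := by
          rw [← Units.val_mul, ← map_mul, hcc, map_one, Units.val_one]
        have h5 := congrArg (Int.castRingHom ℚ).mapMatrix h4
        rw [map_mul, map_one] at h5
        exact h5)
    exact ⟨_, B, C, ε, ⟨hB, hB'⟩, ⟨hC, hC'⟩, fun i k => rfl⟩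
  · obtain ⟨B, C, ε, ⟨hB, hB'⟩, ⟨hC, hC'⟩, hP'⟩ := hP
    obtain ⟨t, ht0, ht⟩ := h3 φ c hc B C ε hB hB' hC hC'
    have h6 : P = Matrix.of fun i j => Pool.Agent.N883.Q.per (realPeriod curve)
        (complexPeriod curve) (ε i) * ∑ l, (C i l : ℂ) * φ (B l j) := by
      ext i k
      rw [hP' i k]
      rfl
    refine ⟨r / t, div_ne_zero hr0 ht0, ?_⟩
    have ht' : (t : ℂ) ≠ 0 := by exact_mod_cast ht0
    rw [h6, ht, l5]
    push_cast
    field_simp

end Pool.Agent.Results.MP_29b22a_nt.PrimePowerTensor
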