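import Pool.Agent.N856.JM.P.T2

/-!
# Beilinson's conjecture at the central point for products of twists of three non-CM modular curves by
# different discriminants

Let `X = A` be a product of elliptic curves of any number, each of them the quadratic twist of `X_0(15)`,
`X_0(21)` or `X_0(24)` by a negative fundamental discriminant `-N`; the discriminants of the factors are
arbitrary and may be different. The twist by `-N` is allowed if in `ℚ(√-N)`
* for `X_0(15)`: `3` is not inert and `5` is not split,
* for `X_0(21)`: `3` is not split and `7` is not inert,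
* for `X_0(24)`: `3` is not inert, and `2` is inert or `8 ∣ N`.
These curves have no complex multiplication, and curves of different levels are not isogenous.

For `i = m = 1` we prove, with no hypothesis: if none of the class groups of the fields `ℚ(√-N)`, `-N` the
discriminants of the factors, has an element of order four, then `A(ℚ)` is finite, so that
`V¹ = CH¹(A)⁰ ⊗ ℚ = A^∨(ℚ) ⊗ ℚ` is zero, (i) and (ii) of the conjecture hold, `L(A, s)` is entire, its order
at `s = 1` is `0 = dim V¹`, (iii), and `L(A, 1)` is a nonzero rational multiple of the determinant of the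
period matrix `Π` of `A`, (iv).

Let `D` be any finite set of pairs `(l, e)`, and let `n` be a random squarefree integer of any residue class
modulo any `M` such that, for all `(l, e)` in `D`, `n` is prime to `e`, `-n e` is an odd fundamental
discriminant and the twist of `X_0(l)` by `-n e` is allowed. Let `k` be the number of the different `e`. The
natural density of the `n` for which all the twists of `X_0(l)` by `-n e`, `(l, e)` in `D`, have only finitely
many rational points and no element of order two in `Ш` is exactly `η^k`,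
`η = ∏_{i ≥ 1} (1 - 2^{-i}) = 0.2888…`, and for all these `n` the conjecture holds for all the products of
these twists, of all dimensions. Such families exist for all numbers of factors and all the choices of the
levels, with different prime multipliers.

The central values and the descent for one curve are joint work of many helpers (875 and others for level 15;
637, 877 and others for level 21; 877, 373, 402 and others for level 24); the density of one condition is by
helper916, the linear algebra of several conditions after helpers 426, 588 and others; this file: helper856.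
-/

set_option autoImplicit false
set_option linter.style.haveILetI false

open WeierstrassCurve MeasureTheory Filter Topology Finset

namespace Pool.Agent.Results.MP_29b22a_nt.ProductsOfTwists

open scoped Classical

open Pool.Agent.TH841.SH.D (Sha)

/-! ### elliptic curves -/

/-- The curve given by the equation of `W` over the ring `R`. -/
abbrev base (W : WeierstrassCurve ℤ) (R : Type) [CommRing R] : WeierstrassCurve R :=
  W.map (Int.castRingHom R)

/-- `W` is a global minimal equation: `Δ ≠ 0` and `|Δ|` is minimal among the integral equations of the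
same curve over `ℚ`. -/
def Minimal (W : WeierstrassCurve ℤ) : Prop :=
  W.Δ ≠ 0 ∧ ∀ (W' : WeierstrassCurve ℤ) (C : VariableChange ℚ), C • base W ℚ = base W' ℚ →
    |W.Δ| ≤ |W'.Δ|

/-- The number of the affine points modulo `p`. -/
noncomputable def pts (W : WeierstrassCurve ℤ) (p : ℕ) : ℕ :=
  Nat.card {P : ZMod p × ZMod p // (base W (ZMod p)).toAffine.Equation P.1 P.2}

/-- `a_p = p + 1 - #W(𝔽_p)`, the points counted with the point at infinity. -/
noncomputable def a (W : WeierstrassCurve ℤ) (p : ℕ) : ℤ := p - pts W p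

/-- `4 x³ + b₂ x² + 2 b₄ x + b₆ = (2 y + a₁ x + a₃)²`. -/
def cubic (W : WeierstrassCurve ℤ) (x : ℝ) : ℝ := 4 * x ^ 3 + W.b₂ * x ^ 2 + 2 * W.b₄ * x + W.b₆

/-- `Ω = ∫_{W(ℝ)} |ω|` with `ω = dx / (2 y + a₁ x + a₃)`, as an integral over `x`: two real points lie
over each `x` with `cubic x > 0`. -/
noncomputable def Omega (W : WeierstrassCurve ℤ) : ℝ :=
  2 * ∫ x in {x : ℝ | 0 < cubic W x}, 1 / √(cubic W x)

/-- `-n` is a fundamental discriminant. -/
def FundNeg (n : ℕ) : Prop := (Squarefree n ∧ n % 4 = 3) ∨
  ∃ m : ℕ, n = 4 * m ∧ Squarefree m ∧ (m % 4 = 1 ∨ m % 4 = 2)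

/-- The squarefree integer `m n` with `ℚ(√(m n)) = ℚ(√-n)`. -/
def m (n : ℕ) : ℤ := if n % 2 = 1 then -(n : ℤ) else -((n / 4 : ℕ) : ℤ)

/-- The quadratic twist of `X_0(15)` by `-n`: `y² + x y = x³ - ((7 m + 1)/4) x² - 9 m² x` if `n` is odd,
`y² = x (x + 9 m) (x - 16 m)` if `n` is even. -/
def E15 (n : ℕ) : WeierstrassCurve ℤ :=
  if n % 2 = 1 then ⟨1, -((7 * m n + 1) / 4), 0, -(9 * (m n) ^ 2), 0⟩
  else ⟨0, -7 * m n, 0, -144 * (m n) ^ 2, 0⟩

/-- The quadratic twist of `X_0(21)` by `-n`: `y² + x y = x³ + ((25 m - 1)/4) x² + 9 m² x` if `n` is odd,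
`y² = x (x - 9 m) (x + 7 m)` if `n` is even. -/
def E21 (n : ℕ) : WeierstrassCurve ℤ :=
  if n % 2 = 1 then ⟨1, (25 * m n - 1) / 4, 0, 9 * (m n) ^ 2, 0⟩
  else ⟨0, -2 * m n, 0, -63 * (m n) ^ 2, 0⟩

/-- The quadratic twist of `X_0(24)` by `-n`: `y² = x (x - m) (x + 3 m)`. -/
def E24 (n : ℕ) : WeierstrassCurve ℤ := ⟨0, 2 * m n, 0, -3 * (m n) ^ 2, 0⟩

/-- The ideal class group of `ℚ(√-n)` has no element of order four. -/
def NoOrderFour (n : ℕ) : Prop :=
  ∀ (K : Type) [Field K] [NumberField K], Module.finrank ℚ K = 2 → (∃ s : K, s ^ 2 = (m n : K)) →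
    ∀ c : ClassGroup (NumberField.RingOfIntegers K), orderOf c ≠ 4

/-! ### products of elliptic curves -/

section
variable {d : ℕ} (A : Fin d → WeierstrassCurve ℤ)

/-- The group of the rational points of the abelian variety `A = ∏ A i`. -/
abbrev Points : Type := ∀ i, (base (A i) ℚ).toAffine.Point

/-- The Tate-Shafarevich group of the abelian variety `A = ∏ A i`. -/
abbrev ShaA : Type := ∀ i, Sha (base (A i) ℚ)

/-- `L` is the L-function of the product of the minimal equations `A i`: it is entire, and for
`Re s > 3/2` it is given by the Euler product with the factors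
`∏ i, (1 - a_p(A i) p^(-s) + p^(1 - 2 s))⁻¹`, where the last term is absent if `p` divides the
discriminant of `A i`. -/
def IsL (L : ℂ → ℂ) : Prop :=
  Differentiable ℂ L ∧ ∀ s : ℂ, 3 / 2 < s.re →
    HasProd (fun p : Nat.Primes => ∏ i, (1 - (a (A i) p : ℂ) * ((p : ℕ) : ℂ) ^ (-s) +
      (if ((p : ℕ) : ℤ) ∣ (A i).Δ then 0 else ((p : ℕ) : ℂ) ^ (1 - 2 * s)))⁻¹) (L s)

/-- `A(ℚ)` is finite and `Ш(A/ℚ)` has no element of order two. -/
def RankZeroShaTwo : Prop := Finite (Points A) ∧ ∀ x : ShaA A, 2 • x = 0 → x = 0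

/-- `P` is a period matrix `Π` of `A = ∏ A i`, of `F¹ H¹_DR(A / ℝ) → H¹(A / ℝ, ℝ)` in bases of the rational
structures. The invariant differentials `ω_j` of the curves `A j` are a basis of `F¹ H¹_DR(A / ℚ)`, and the
cycles `A j (ℝ)`, oriented such that `∫ ω_j > 0`, are a basis of `H₁(A(ℂ), ℚ)⁺`; in these bases the matrix is
the diagonal matrix of the real periods `Ω_j`. The other bases give `C * Π * B` with invertible rational
matrices `C` and `B`. -/
def IsPeriodMatrix (P : Matrix (Fin d) (Fin d) ℝ) : Prop :=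
  ∃ B C : Matrix (Fin d) (Fin d) ℚ, B.det ≠ 0 ∧ C.det ≠ 0 ∧
    P = C.map (fun x : ℚ => (x : ℝ)) * Matrix.diagonal (fun j => Omega (A j)) *
      B.map (fun x : ℚ => (x : ℝ))

/-- Beilinson's statements for `X = A`, `i = m = 1`, in the case of rank zero: `A(ℚ)` is finite, so that
`V¹ = CH¹(A)⁰ ⊗ ℚ = A^∨(ℚ) ⊗ ℚ = 0`; the L-function is entire, its order at `s = 1` is zero, and `L(A, 1)` is
a nonzero rational multiple of the determinant of the period matrix, which is not zero. -/
def Beilinson : Prop :=
  (∀ i, Minimal (A i)) ∧ Finite (Points A) ∧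
  (∃ L : ℂ → ℂ, IsL A L ∧ analyticOrderAt L 1 = 0 ∧
    ∀ P, IsPeriodMatrix A P → ∃ r : ℚ, r ≠ 0 ∧ L 1 = r * (P.det : ℂ)) ∧
  (∃ P, IsPeriodMatrix A P) ∧ ∀ P, IsPeriodMatrix A P → P.det ≠ 0

end

/-! ### the twists and the families -/

/-- The quadratic twist of `X_0(l)` by `-n`, for `l = 15`, `21`, `24`. -/
def E (l n : ℕ) : WeierstrassCurve ℤ := if l = 15 then E15 n else if l = 21 then E21 n else E24 n

/-- The twist of `X_0(l)` by `-n` is allowed: `-n` is a fundamental discriminant and, in `ℚ(√-n)`,
* `l = 15`, `3` is not inert and `5` is not split, or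
* `l = 21`, `3` is not split and `7` is not inert, or
* `l = 24`, `3` is not inert, and `2` is inert or `8 ∣ n`. -/
def Allowed (l n : ℕ) : Prop := FundNeg n ∧
  ((l = 15 ∧ n % 3 ≠ 1 ∧ (n % 5 = 0 ∨ n % 5 = 2 ∨ n % 5 = 3)) ∨
    (l = 21 ∧ n % 3 ≠ 2 ∧ (n % 7 = 0 ∨ n % 7 = 3 ∨ n % 7 = 5 ∨ n % 7 = 6)) ∨
    (l = 24 ∧ n % 3 ≠ 1 ∧ (n % 8 = 3 ∨ n % 8 = 0)))

/-- The family for the set `D` of pairs `(l, e)` and the class of `b` modulo `M`: `n` is squarefree,
`n ≡ b` modulo `M`, and for all `(l, e)` in `D` the integer `n` is prime to `e`, `-n e` is an odd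
fundamental discriminant and the twist of `X_0(l)` by `-n e` is allowed. -/
def Fam (D : Finset (ℕ × ℕ)) (M b n : ℕ) : Prop :=
  Squarefree n ∧ n % M = b % M ∧ ∀ x ∈ D, n.Coprime x.2 ∧ (n * x.2) % 4 = 3 ∧ Allowed x.1 (n * x.2)

/-- The good `n`: for all the `(l, e)` in `D` the twist of `X_0(l)` by `-n e` has only finitely many rational
points, and its Tate-Shafarevich group has no element of order two. -/
def GoodN (D : Finset (ℕ × ℕ)) (n : ℕ) : Prop :=
  ∀ x ∈ D, RankZeroShaTwo (fun _ : Fin 1 => E x.1 (n * x.2))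

/-- `∏_{i ≥ 1} (1 - 2^{-i}) = 0.2888…` -/
noncomputable def eta : ℝ := ∏' i : ℕ, (1 - (1 / 2 : ℝ) ^ (i + 1))

/-- the number of the `n ≤ X` with the property `P` -/
noncomputable def count (P : ℕ → Prop) (X : ℕ) : ℕ := ((Icc 1 X).filter fun n => P n).card

/-- among the numbers with the property `P`, those with the property `Q` have natural density `δ` -/
def HasDensity (P Q : ℕ → Prop) (δ : ℝ) : Prop :=
  Tendsto (fun X : ℕ => (count (fun n => P n ∧ Q n) X : ℝ) / (count P X : ℝ)) atTop (𝓝 δ)

/-- **Main theorem.** Beilinson's statements for `i = m = 1` and all the products of allowed twists of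
`X_0(15)`, `X_0(21)`, `X_0(24)` by discriminants whose class groups have no element of order four; the joint
natural density; the statements for all the products and all the good `n`; the existence of the families. -/
theorem result :
    (∀ (d : ℕ) (l N : Fin d → ℕ), (∀ i, Allowed (l i) (N i)) → (∀ i, NoOrderFour (N i)) →
      Beilinson (fun i => E (l i) (N i))) ∧
    (∀ (D : Finset (ℕ × ℕ)) (M b : ℕ), 0 < M → (∃ n, Fam D M b n) →
      HasDensity (Fam D M b) (GoodN D) (eta ^ (D.image Prod.snd).card)) ∧
    (∀ (D : Finset (ℕ × ℕ)) (M b n : ℕ), Fam D M b n → GoodN D n →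
      ∀ (d : ℕ) (x : Fin d → ℕ × ℕ), (∀ i, x i ∈ D) →
        Beilinson (fun i => E (x i).1 (n * (x i).2))) ∧
    (∀ (k : ℕ) (l : Fin k → ℕ), (∀ i, l i = 15 ∨ l i = 21 ∨ l i = 24) →
      ∃ e : Fin k → ℕ, Function.Injective e ∧ (∀ i, (e i).Prime) ∧
        Fam (univ.image fun i => (l i, e i)) 1 0 227) ∧
    0.2887 < eta ∧ eta < 0.2889 :=
  Pool.Agent.N856.JM.P.main2

end Pool.Agent.Results.MP_29b22a_nt.ProductsOfTwists
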