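import Pool.Agent.N844.QG.T17
import Pool.Agent.N844.QG.Lq

/-!
# Beilinson's conjecture for all quadratic twists of a threefold

`E_a : y² = x³ - 91 a² x - 330 a³ = (x + 5a) (x + 6a) (x - 11a)` is the quadratic twist by `a` of the curve
`y² = x (x + 1) (x - 16)` of conductor `17` (no complex multiplication). We consider smooth complete
intersections `X ⊂ P⁵` of two quadrics over `ℚ`, the base loci of the pencils with the discriminant curve
`C : y² = -4641 b (x² + 4352 ab) (x² - 289 ab) (x² + 78608 ab)`, whose Jacobian `J` is isogenous to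
`E_a × E_b`; `i = 3`, `m = 2`, `V² = CH²(X)^0 ⊗ ℚ = J(ℚ) ⊗ ℚ` (Reid, Donagi, Bloch–Murre).

Let `a` and `b` be ANY squarefree integers, positive or negative, such that `E_a(ℚ)`, `E_b(ℚ)` are finite
and `Ш(E_a/ℚ)[2]`, `Ш(E_b/ℚ)[2]` are zero. Then for ALL these `X` the `L`-function of `H³(X)`, given by the
numbers of points of `X` over all the finite fields of good characteristic, is entire and does not vanish at
`s = 2`. So (i), (ii) and (iii) of the conjecture hold for `X`, with `V² = 0`.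

For every integer `a` there is an explicit `X_a` with `a = b`: `X_a` is the twist by `a` of `X_1`. The natural
density of the `a` with this property in the set of ALL squarefree integers is exactly
`(1/2) ∏_{i ≥ 1} (1 - 2^{-(2i-1)}) = 0.2097…`, in the ordering by `|a|` and in the ordering by the
discriminant of `ℚ(√a)`.

The threefolds: `Pool/Agent/N844/QP`, `Pool/Agent/N844/QG`. The theorem on the twists `E_a` is the joint
work of helpers 969, 970, 971, 972, 973, 974, 975, 99, 218, 402, 575, 809, 816, 844, 855, 871, 875,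
877, 886, 890, 916, 919 and others (`MP_696deb_nt/TwistsX17`).
-/

set_option autoImplicit false

open Finset Filter Matrix
open scoped LinearAlgebra.Projectivization

namespace Pool.Agent.Results.MP_29b22a_nt.QuadricPencilsX17

/-! ### the twists of the curve of conductor `17` -/

/-- the twist `E_a : y² = x³ - 91 a² x - 330 a³` by `a` of `y² = x (x + 1) (x - 16)`, over `ℚ` -/
def E (a : ℤ) : WeierstrassCurve ℚ :=
  { a₁ := 0, a₂ := 0, a₃ := 0, a₄ := ((-91 * a ^ 2 : ℤ) : ℚ), a₆ := ((-330 * a ^ 3 : ℤ) : ℚ) }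

/-- `E_a(ℚ)` is finite and `Ш(E_a/ℚ)` has no element of order two -/
def RankZeroShaTwo (a : ℤ) : Prop :=
  Finite (E a).toAffine.Point ∧ ∀ x : Pool.Agent.TH841.SH.D.Sha (E a), 2 • x = 0 → x = 0

open Classical in
/-- the number of the squarefree integers `d`, `|d| ≤ X`, with the property `P` -/
noncomputable def count (P : ℤ → Prop) (X : ℕ) : ℕ :=
  ((Icc (-(X : ℤ)) X).filter fun d => Squarefree d ∧ P d).card

/-- `D` is a fundamental discriminant (`1` included) -/
def Fund (D : ℤ) : Prop := (Squarefree D ∧ D % 4 = 1) ∨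
  ∃ m : ℤ, D = 4 * m ∧ Squarefree m ∧ (m % 4 = 2 ∨ m % 4 = 3)

/-- the squarefree integer `d` with `ℚ(√d) = ℚ(√D)` -/
def core (D : ℤ) : ℤ := if D % 2 = 1 then D else D / 4

open Classical in
/-- the number of the fundamental discriminants `D`, `|D| ≤ X`, for which `core D` has the
property `P` -/
noncomputable def countDisc (P : ℤ → Prop) (X : ℕ) : ℕ :=
  ((Icc (-(X : ℤ)) X).filter fun D => Fund D ∧ P (core D)).card

/-! ### the intersections of two quadrics -/

/-- the quadratic form of a matrix -/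
def qf {R : Type*} [CommRing R] {N : ℕ} (M : Matrix (Fin N) (Fin N) R) (y : Fin N → R) : R :=
  y ⬝ᵥ (M *ᵥ y)

/-- the integral pencils of quadrics in `P⁵` with the discriminant curve
`y² = -4641 b (x² + 4352 ab) (x² - 289 ab) (x² + 78608 ab)` -/
structure IsPencil (a b m : ℤ) (A B : Matrix (Fin 6) (Fin 6) ℤ) : Prop where
  symA : A.IsSymm
  symB : B.IsSymm
  disc : ∀ x : ℤ, (x • A - B).det = 4641 * b * m ^ 2 * ((x ^ 2 + 4352 * (a * b)) *
    (x ^ 2 - 289 * (a * b)) * (x ^ 2 + 78608 * (a * b)))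

/-- the reduction of an integral matrix to a field -/
def red {N : ℕ} (A : Matrix (Fin N) (Fin N) ℤ) (k : Type) [Field k] : Matrix (Fin N) (Fin N) k :=
  A.map (Int.castRingHom k)

/-- the base locus of the pencil is smooth over `k` (Jacobian criterion at the points over `k`) -/
def Smooth (A B : Matrix (Fin 6) (Fin 6) ℤ) (k : Type) [Field k] : Prop :=
  ∀ y : Fin 6 → k, y ≠ 0 → qf (red A k) y = 0 → qf (red B k) y = 0 →
    LinearIndependent k ![red A k *ᵥ y, red B k *ᵥ y]

/-- the number of points over `k` of the base locus `X ⊂ P⁵` of the pencil -/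
noncomputable def numP (A B : Matrix (Fin 6) (Fin 6) ℤ) (k : Type) [Field k] : ℕ :=
  Nat.card {P : ℙ k (Fin 6 → k) // qf (red A k) P.rep = 0 ∧ qf (red B k) P.rep = 0}

/-- `ω` are the eigenvalues of Frobenius at `p` on `H³(X)`: the number of points over every finite
field `k` with `p ^ r` elements is `1 + p^r + p^(2r) + p^(3r) - ∑ ω_j^r` -/
def IsFrob (A B : Matrix (Fin 6) (Fin 6) ℤ) (p : ℕ) (ω : Fin 4 → ℂ) : Prop :=
  (∀ j, ‖ω j‖ = (p : ℝ) ^ ((3 : ℝ) / 2)) ∧
    ∀ (k : Type) [Field k] [Fintype k] [CharP k p] (r : ℕ), Fintype.card k = p ^ r →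
      (numP A B k : ℂ) =
        1 + (p : ℂ) ^ r + (p : ℂ) ^ (2 * r) + (p : ℂ) ^ (3 * r) - ∑ j, ω j ^ r

/-- `L` is entire and is the Euler product of `∏_j (1 - ω_j p^{-s})⁻¹` over the primes not dividing
`M`, where `ω_j` are the eigenvalues of Frobenius at `p` on `H³(X)` -/
def IsL (A B : Matrix (Fin 6) (Fin 6) ℤ) (M : ℤ) (L : ℂ → ℂ) : Prop :=
  Differentiable ℂ L ∧ ∃ ω : ℕ → Fin 4 → ℂ,
    (∀ p : ℕ, p.Prime → ¬ (p : ℤ) ∣ M → IsFrob A B p (ω p)) ∧
    ∀ s : ℂ, (5 : ℝ) / 2 < s.re →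
      HasProd (fun p : ℕ => open Classical in
        if p.Prime ∧ ¬ (p : ℤ) ∣ M then ∏ j, (1 - ω p j * (p : ℂ) ^ (-s))⁻¹ else 1) (L s)

/-- the matrix of the first quadric of `X_a` -/
def exA (a : ℤ) : Matrix (Fin 6) (Fin 6) ℤ :=
  !![1, 0, 0, 0, 0, 0;
     0, 4641 * a, 0, 0, 0, 0;
     0, 0, 1, 0, 0, 0;
     0, 0, 0, -17, 0, 0;
     0, 0, 0, 0, 1, 0;
     0, 0, 0, 0, 0, -17]

/-- the matrix of the second quadric of `X_a` -/
def exB (a : ℤ) : Matrix (Fin 6) (Fin 6) ℤ :=
  !![17 * a, 0, 0, 0, 0, 0;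
     0, -78897 * a ^ 2, 0, 0, 0, 0;
     0, 0, 0, 272 * a, 0, 0;
     0, 0, 272 * a, 0, 0, 0;
     0, 0, 0, 0, 0, 1156 * a;
     0, 0, 0, 0, 1156 * a, 0]

open Pool.Agent.N875.P17 (WS)
open Pool.Agent.N916.MO (G17)
open Pool.Agent.N919.BS (NS NF Rt17)

theorem E_eq (d : ℤ) : E d = WS d := rfl

theorem rank_eq (d : ℤ) : RankZeroShaTwo d ↔ Pool.Agent.N875.X15.Fin2 (WS d) := by
  unfold RankZeroShaTwo Pool.Agent.N875.X15.Fin2
  rw [← E_eq]
  refine and_congr Iff.rfl (forall_congr' fun x => ?_)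
  rw [two_nsmul]

theorem rank_iff {d : ℤ} (hs : Squarefree d) : RankZeroShaTwo d ↔ Rt17 d ∧ G17 d := by
  rw [rank_eq]
  exact Pool.Agent.N809.P17.fin2_all hs

theorem fund_core {D : ℤ} (h : Fund D) : Squarefree (core D) := by
  rcases h with ⟨h1, h2⟩ | ⟨m, rfl, h1, h2⟩
  · unfold core
    rw [if_pos (by omega)]
    exact h1
  · unfold core
    rw [if_neg (by omega)]
    have : 4 * m / 4 = m := by omega
    rw [this]
    exact h1

theorem count_eq (P Q : ℤ → Prop) (h : ∀ d, Squarefree d → (P d ↔ Q d)) (X : ℕ) :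
    count P X = NS Q X := by
  classical
  unfold count NS
  refine congrArg Finset.card (Finset.ext fun n => ?_)
  refine (Finset.mem_filter).trans (Iff.trans ?_ (Finset.mem_filter).symm)
  refine and_congr_right fun _ => and_congr_right fun hs => h n hs

theorem countDisc_eq (P Q : ℤ → Prop) (h : ∀ d, Squarefree d → (P d ↔ Q d)) (X : ℕ) :
    countDisc P X = NF Q X := by
  classical
  unfold countDisc NF
  refine congrArg Finset.card (Finset.ext fun n => ?_)
  refine (Finset.mem_filter).trans (Iff.trans ?_ (Finset.mem_filter).symm)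
  refine and_congr_right fun _ => and_congr_right fun hs => h _ (fund_core hs)

theorem hasProd_c2 : HasProd (fun i : ℕ => 1 - (1 / 2 : ℝ) ^ (2 * i + 1)) Pool.Agent.Y703.CQ.c2 := by
  have h : Multipliable fun i : ℕ => 1 + -((1 / 2 : ℝ) ^ (2 * i + 1)) := by
    apply multipliable_one_add_of_summable
    have h1 : Summable fun i : ℕ => (1 / 4 : ℝ) ^ i * (1 / 2) :=
      (summable_geometric_of_lt_one (by norm_num) (by norm_num)).mul_right _
    refine h1.congr fun i => ?_
    rw [norm_neg, Real.norm_of_nonneg (by positivity), pow_succ, pow_mul]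
    norm_num
  have h3 := h.hasProd
  have e : (fun i : ℕ => 1 + -((1 / 2 : ℝ) ^ (2 * i + 1))) =
      fun i : ℕ => 1 - (1 / 2 : ℝ) ^ (2 * i + 1) := by
    funext i
    ring
  rw [e] at h3
  exact h3

theorem zb {a : ℤ} (ha : a ≠ 0) (h : RankZeroShaTwo a) :
    ∃ F : ℂ → ℂ, Pool.Agent.Y19.QT.IsLFun (-91 * a ^ 2) (-330 * a ^ 3) F ∧ F 1 ≠ 0 := by
  obtain ⟨⟨F, hF, hF1⟩, -⟩ := Pool.Agent.N844.QG.F17.GA.zb ⟨ha, (rank_eq a).1 h⟩
  exact ⟨F, hF, (hF.1.analyticAt 1).analyticOrderAt_eq_zero.1 hF1⟩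

/-- **Beilinson's conjecture (i)–(iii) for the `H³` of intersections of two quadrics: natural density
`0.2097…` of all the quadratic twists of a threefold without complex multiplication.** -/
theorem result :
    -- the conjecture for all good pairs and for all pencils
    (∀ a b : ℤ, a ≠ 0 → b ≠ 0 → RankZeroShaTwo a → RankZeroShaTwo b →
      ∀ m : ℤ, m ≠ 0 → ∀ A B : Matrix (Fin 6) (Fin 6) ℤ, IsPencil a b m A B →
        (∀ (k : Type) [Field k] [CharZero k], Smooth A B k) ∧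
        (∀ (p : ℕ) (k : Type) [Field k] [CharP k p], p.Prime →
          ¬ (p : ℤ) ∣ 9282 * (a * b * m) → Smooth A B k) ∧
        ∃ L : ℂ → ℂ, IsL A B (9282 * (a * b * m)) L ∧ L 2 ≠ 0) ∧
    -- the twists `X_a` of an explicit threefold
    (∀ a : ℤ, IsPencil a a 17 (exA a) (exB a)) ∧
    -- the natural density
    ∃ η : ℝ, HasProd (fun i : ℕ => 1 - (1 / 2 : ℝ) ^ (2 * i + 1)) η ∧ 0.4194 < η ∧ η < 0.4195 ∧
      Tendsto (fun X : ℕ => (count RankZeroShaTwo X : ℝ) / (count (fun _ => True) X : ℝ))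
        atTop (nhds (η / 2)) ∧
      Tendsto (fun X : ℕ => (countDisc RankZeroShaTwo X : ℝ) / (countDisc (fun _ => True) X : ℝ))
        atTop (nhds (η / 2)) := by
  refine ⟨fun a b ha hb hA hB m hm A B hAB => ?_, fun a => ?_, ?_⟩
  · have hAB' : Pool.Agent.N844.QG.Is17 a b m A B := ⟨hAB.symA, hAB.symB, hAB.disc⟩
    refine ⟨fun k _ _ y hy h6 h7 => ?_, fun p k _ _ hp hpM y hy h6 h7 => ?_, ?_⟩
    · exact hAB'.pen.smooth (Pool.Agent.N844.QG.gd17 (by norm_num) (by norm_num) (by norm_num)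
        (by norm_num) (by norm_num) (by exact_mod_cast ha) (by exact_mod_cast hb)
        (by exact_mod_cast hm)) hy h6 h7
    · obtain ⟨⟨k2, k3, k7, k13, k17⟩, ka, kb, km⟩ :=
        Pool.Agent.N844.QG.ne_of (p := p) (a := a) (a' := b) (m := m) hpM k
      exact hAB'.pen.smooth (Pool.Agent.N844.QG.gd17 k2 k3 k7 k13 k17 ka kb km) hy h6 h7
    · have hN : Pool.Agent.N844.QG.N17 a b m ≠ 0 :=
        mul_ne_zero (by norm_num) (mul_ne_zero (mul_ne_zero ha hb) hm)
      obtain ⟨ω, hω, L, l1, l2, l3⟩ :=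
        Pool.Agent.N844.QG.eulerQ hN hAB'.split (zb ha hA) (zb hb hB)
      exact ⟨L, ⟨l1, ω, hω, fun s hs => l2 s hs⟩, l3⟩
  · have h := Pool.Agent.N844.QG.ex17 a
    exact ⟨h.symA, h.symB, h.disc⟩
  · have e1 := count_eq RankZeroShaTwo (fun d => Rt17 d ∧ G17 d) fun d hs => rank_iff hs
    have e2 := count_eq (fun _ => True) (fun _ => True) fun d _ => Iff.rfl
    have e3 := countDisc_eq RankZeroShaTwo (fun d => Rt17 d ∧ G17 d) fun d hs => rank_iff hs
    have e4 := countDisc_eq (fun _ => True) (fun _ => True) fun d _ => Iff.rfl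
    obtain ⟨-, -, -, hb1, hb2⟩ := Pool.Agent.Y948.CQ.t_C2
    refine ⟨Pool.Agent.Y703.CQ.c2, hasProd_c2, hb1, hb2, ?_, ?_⟩
    · refine Pool.Agent.N916.MO.dens17_sf.congr fun X => ?_
      rw [e1, e2]
    · refine Pool.Agent.N916.MO.dens17_fd.congr fun X => ?_
      rw [e3, e4]

end Pool.Agent.Results.MP_29b22a_nt.QuadricPencilsX17
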