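import Pool.Agent.N41.RM.Frob

/-!
# Beilinson's conjecture on central values in terms of the traces of Frobenius: order, leading
coefficient and sign, without any hypothesis on the zeros

`X` is a smooth projective variety of dimension `d` over a number field `K`, for example over `ℚ`, and
`i = 2 m - 1` is odd.  `L(X, s) = L(H^i(X), s)` is an Euler product over the primes `v` of `K`, absolutely
convergent for `Re s > m + 1/2`.  We assume only that it has a continuation `F` along the real segment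
`[m, m + 1/2]` which is meromorphic at the points of this segment (this contains the condition (H1)).

The parts (iii) and (iv) of Beilinson's conjecture are assertions on the order of `F` at `m` and on its
leading coefficient `L^*(X, m)`.  A formula for the partial Euler products at `s = m` implies the
Riemann hypothesis for `L(X, s)` (Goldfeld, Kuo and Murty, Conrad), so that it is a much stronger
assertion.  Here is a formula which holds without any hypothesis: for `γ > π/2` put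

`W_γ(T) = - ∑_v ∑_{k ≥ 1} tr(Frob_v^k | H^i(X)) / (k q_v^{m k}) ·`
`         exp(i γ k log q_v / T) / Γ(1 + k log q_v / T)`,

an absolutely convergent series for every `T > 0`, and
`Λ_γ = ∫_0^∞ (e^{-t} - e^{iγt} / Γ(1 + t)) dt / t`.  Then

`W_γ(T) = r (log T - Λ_γ) - log |L^*(X, m)| + π e i + O(1/T)`

with `r = ord_{s=m} F` and `e` the number of the real zeros minus the number of the real poles in
`(m, m + 1/2]`.  Consequently, for every integer `ρ` and every real number `B ≠ 0`, the following are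
equivalent: `ord_{s=m} L(X, s) = ρ` and `L^*(X, m) = B`; `exp W_γ(T) / T^ρ → e^{-ρ Λ_γ} / B` as
`T → ∞`; the same limit along one sequence `T_n → ∞`.

So for `ρ = dim V^m` and `B = det Π · det ⟨ , ⟩` the parts (iii) and (iv) together are equivalent to
`exp W_γ(T) / T^ρ → e^{-ρ Λ_γ} / (c B)` for a rational number `c ≠ 0`, an assertion on the traces of
Frobenius only.
-/

set_option autoImplicit false

namespace Pool.Agent.Results.MP_29b22a_nt.RotatedLeadingTerm

open NumberField IsDedekindDomain Filter Topology Polynomial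
open Pool.Agent.TH958.BV (cone IsFrobenius)

section defs

variable {K : Type} [Field K] [NumberField K] {n N : ℕ}

/-- `α_{v,1}, …, α_{v,N}` are the parameters of the Euler factors of `L(H^i(X), s)`, `i = 2 m - 1`:
outside the finite set `S` of primes they are the eigenvalues of the geometric Frobenius on `H^i(X)`
(this holds at all primes of good reduction by the theorem of Deligne), and at the primes in `S` any
numbers of absolute value at most `q_v^{i/2}` such that the Euler factor has real coefficients (the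
eigenvalues of Frobenius on the inertia invariants, completed by zeros). -/
def IsParameter (X : Set (MvPolynomial (Fin n) (𝓞 K))) (d m : ℕ)
    (S : Finset (HeightOneSpectrum (𝓞 K))) (α : HeightOneSpectrum (𝓞 K) → Fin N → ℂ) : Prop :=
  (∀ v ∉ S, IsFrobenius X d (2 * m - 1) v (α v)) ∧
    ∀ v ∈ S, (∀ j, ‖α v j‖ ≤ (Ideal.absNorm v.asIdeal : ℝ) ^ ((m : ℝ) - 1 / 2)) ∧
      ∃ P : ℝ[X], P.map (algebraMap ℝ ℂ) = ∏ j, (Polynomial.X - Polynomial.C (α v j))

/-- The L-function `L(X, s) = ∏_v ∏_j (1 - α_{v,j} q_v^{-s})⁻¹`. -/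
noncomputable def LFun (α : HeightOneSpectrum (𝓞 K) → Fin N → ℂ) (s : ℂ) : ℂ :=
  ∏' v : HeightOneSpectrum (𝓞 K), ∏ j, (1 - α v j * (Ideal.absNorm v.asIdeal : ℂ) ^ (-s))⁻¹

/-- `F` is a continuation of `L(X, s)` from `Re s > m + 1/2` along the real axis to `s = m`, meromorphic
at all points of the segment `[m, m + 1/2]`. -/
def IsContinuation (m : ℕ) (α : HeightOneSpectrum (𝓞 K) → Fin N → ℂ) (F : ℂ → ℂ) : Prop :=
  (∀ x : ℝ, (m : ℝ) ≤ x → x ≤ (m : ℝ) + 1 / 2 → MeromorphicAt F (x : ℂ)) ∧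
    ∀ s : ℂ, (m : ℝ) + 1 / 2 < s.re → F s = LFun α s

/-- `k log q_v`, `k = x.2 + 1`. -/
noncomputable def freq (x : HeightOneSpectrum (𝓞 K) × ℕ) : ℝ :=
  (x.2 + 1) * Real.log (Ideal.absNorm x.1.asIdeal : ℝ)

/-- The term of `W_γ(T)` for the prime `v = x.1` and `k = x.2 + 1`:
`- tr(Frob_v^k) / (k q_v^{m k}) · exp(i γ k log q_v / T) / Γ(1 + k log q_v / T)`. -/
noncomputable def rotTerm (m : ℕ) (α : HeightOneSpectrum (𝓞 K) → Fin N → ℂ) (γ T : ℝ)
    (x : HeightOneSpectrum (𝓞 K) × ℕ) : ℂ :=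
  -(∑ j, α x.1 j ^ (x.2 + 1)) / ((x.2 + 1) * (Ideal.absNorm x.1.asIdeal : ℂ) ^ (m * (x.2 + 1))) *
    (Complex.exp ((γ * freq x / T : ℝ) * Complex.I) / (Real.Gamma (1 + freq x / T) : ℂ))

/-- `W_γ(T)`. -/
noncomputable def rotSum (m : ℕ) (α : HeightOneSpectrum (𝓞 K) → Fin N → ℂ) (γ T : ℝ) : ℂ :=
  ∑' x : HeightOneSpectrum (𝓞 K) × ℕ, rotTerm m α γ T x

/-- `Λ_γ = ∫_0^∞ (e^{-t} - e^{iγt} / Γ(1 + t)) dt / t`. -/
noncomputable def Lam (γ : ℝ) : ℂ := ∫ t in Set.Ioi (0 : ℝ),
  (Complex.exp (-(t : ℂ)) - Complex.exp ((γ * t : ℝ) * Complex.I) * ((Real.Gamma (1 + t))⁻¹ : ℝ)) / t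

/-- The number of the real zeros `> m` of `F` minus the number of its real poles `> m`, with
multiplicities (they are in `(m, m + 1/2]`). -/
noncomputable def excess (F : ℂ → ℂ) (m : ℝ) : ℤ :=
  ∑ᶠ σ ∈ Set.Ioi m, (meromorphicOrderAt F (σ : ℂ)).untop₀

/-- `exp W_γ(T) / T^ρ`. -/
noncomputable def quot (m : ℕ) (α : HeightOneSpectrum (𝓞 K) → Fin N → ℂ) (γ : ℝ) (ρ : ℤ)
    (T : ℝ) : ℂ :=
  Complex.exp (rotSum m α γ T) / (T : ℂ) ^ ρ

end defs

section bridge

variable {K : Type} [Field K] [NumberField K] {n N d m : ℕ}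
  {X : Set (MvPolynomial (Fin n) (𝓞 K))} {S : Finset (HeightOneSpectrum (𝓞 K))}
  {α : HeightOneSpectrum (𝓞 K) → Fin N → ℂ}

theorem temp (hm : 1 ≤ m) (hα : IsParameter X d m S α) (v : HeightOneSpectrum (𝓞 K)) (j : Fin N) :
    ‖α v j‖ ≤ (Ideal.absNorm v.asIdeal : ℝ) ^ (((2 * m - 1 : ℕ) : ℝ) / 2) := by
  by_cases hv : v ∈ S
  · have h1 : (((2 * m - 1 : ℕ) : ℝ) / 2) = (m : ℝ) - 1 / 2 := by
      have : ((2 * m - 1 : ℕ) : ℝ) = 2 * m - 1 := by
        rw [Nat.cast_sub (by omega)]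
        push_cast
        ring
      rw [this]
      ring
    rw [h1]
    exact (hα.2 v hv).1 j
  · exact (Pool.Agent.N41.RM.frob_norm (hα.1 v hv) j).le

theorem real (hd : m ≤ d) (hα : IsParameter X d m S α) (v : HeightOneSpectrum (𝓞 K)) (k : ℕ) :
    (∑ j, α v j ^ (k + 1)).im = 0 := by
  refine Pool.Agent.N41.RM.psum_real_of_stable ?_ _
  by_cases hv : v ∈ S
  · exact Pool.Agent.N41.RM.conj_stable (hα.2 v hv).2
  · exact Pool.Agent.N41.RM.frob_conj (by omega) (hα.1 v hv)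

theorem term_eq (γ T : ℝ) (x : HeightOneSpectrum (𝓞 K) × ℕ) :
    rotTerm m α γ T x = Pool.Agent.N41.RM.rterm Pool.Agent.N41.RM.qv
      (Pool.Agent.N41.RM.av m α) γ T x := by
  have hq : (2 : ℝ) ≤ Ideal.absNorm x.1.asIdeal := Pool.Agent.R409.RA.two_le x.1
  have hq0 : (Ideal.absNorm x.1.asIdeal : ℂ) ≠ 0 := by
    have : (Ideal.absNorm x.1.asIdeal : ℝ) ≠ 0 := by linarith
    exact_mod_cast this
  have h1 : ∑ j, Pool.Agent.N41.RM.av m α x.1 j ^ (x.2 + 1) =
      (∑ j, α x.1 j ^ (x.2 + 1)) / (Ideal.absNorm x.1.asIdeal : ℂ) ^ (m * (x.2 + 1)) := by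
    unfold Pool.Agent.N41.RM.av
    rw [Finset.sum_div]
    refine Finset.sum_congr rfl fun j _ => ?_
    rw [div_pow, pow_mul]
  have h2 : freq x = Pool.Agent.N41.RM.fq Pool.Agent.N41.RM.qv x := rfl
  unfold rotTerm Pool.Agent.N41.RM.rterm
  rw [h1, ← h2, mul_div_assoc γ]
  push_cast
  field_simp

theorem sum_eq (γ T : ℝ) : rotSum m α γ T = Pool.Agent.N41.RM.rmn Pool.Agent.N41.RM.qv
    (Pool.Agent.N41.RM.av m α) γ T := by
  unfold rotSum Pool.Agent.N41.RM.rmn
  exact tsum_congr fun x => term_eq γ T x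

end bridge

/-- **The order, the leading coefficient and the real zeros from the traces of Frobenius, and the parts
(iii) and (iv) of Beilinson's conjecture as a limit.**  Let `X` be the smooth projective variety of
dimension `d` over the number field `K` defined by homogeneous polynomials, `1 ≤ m ≤ d`, `α` the
parameters of `L(X, s) = L(H^{2m-1}(X), s)`, `F` a continuation of `L(X, s)` along the segment
`[m, m + 1/2]`, and `γ > π/2`.  Then

* the Euler product converges for `Re s > m + 1/2`, and `W_γ(T)` converges absolutely for `T > 0`;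
* `F` has an order `r` and a real leading coefficient `l ≠ 0` at `m`, and
  `W_γ(T) = r (log T - Λ_γ) - log |l| + π e i + O(1/T)`;
* for every integer `ρ` and real number `B ≠ 0` the assertions `ord_{s=m} F = ρ` and `F^*(m) = B`,
  `exp W_γ(T) / T^ρ → e^{-ρΛ_γ} / B` for `T → ∞`, and the same for one sequence `T_n → ∞`, are
  equivalent;
* for every integer `ρ` (as `dim V^m`) and real `B ≠ 0` (as `det Π det ⟨ , ⟩`): `ord_{s=m} F = ρ` and
  `F^*(m) ∈ ℚ^* B` if and only if `exp W_γ(T) / T^ρ → e^{-ρΛ_γ} / (c B)` for a rational `c ≠ 0`. -/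
theorem result (K : Type) [Field K] [NumberField K] (n N d m : ℕ) (hm : 1 ≤ m) (hd : m ≤ d)
    (X : Set (MvPolynomial (Fin n) (𝓞 K))) (S : Finset (HeightOneSpectrum (𝓞 K)))
    (α : HeightOneSpectrum (𝓞 K) → Fin N → ℂ) (hα : IsParameter X d m S α) (F : ℂ → ℂ)
    (hF : IsContinuation m α F) (γ : ℝ) (hγ : Real.pi / 2 < γ) :
    (∀ s : ℂ, (m : ℝ) + 1 / 2 < s.re → HasProd (fun v : HeightOneSpectrum (𝓞 K) =>
      ∏ j, (1 - α v j * (Ideal.absNorm v.asIdeal : ℂ) ^ (-s))⁻¹) (F s)) ∧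
    (∀ T : ℝ, 0 < T → Summable fun x => ‖rotTerm m α γ T x‖) ∧
    (∃ (r : ℤ) (l : ℝ), meromorphicOrderAt F m = r ∧ meromorphicTrailingCoeffAt F m = l ∧ l ≠ 0 ∧
      (fun T : ℝ => rotSum m α γ T - (r * (Real.log T - Lam γ) - Real.log |l| +
        Real.pi * excess F m * Complex.I)) =O[atTop] (fun T : ℝ => 1 / T)) ∧
    (∀ (ρ : ℤ) (B : ℝ), B ≠ 0 → List.TFAE [
      meromorphicOrderAt F m = ρ ∧ meromorphicTrailingCoeffAt F m = B,
      Tendsto (quot m α γ ρ) atTop (𝓝 (Complex.exp (-(ρ * Lam γ)) / B)),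
      ∃ t : ℕ → ℝ, Tendsto t atTop atTop ∧
        Tendsto (fun k => quot m α γ ρ (t k)) atTop (𝓝 (Complex.exp (-(ρ * Lam γ)) / B))]) ∧
    ∀ (ρ : ℤ) (B : ℝ), B ≠ 0 →
      ((meromorphicOrderAt F m = ρ ∧ ∃ c : ℚ, c ≠ 0 ∧ meromorphicTrailingCoeffAt F m = c * B) ↔
        ∃ c : ℚ, c ≠ 0 ∧
          Tendsto (quot m α γ ρ) atTop (𝓝 (Complex.exp (-(ρ * Lam γ)) / (c * B)))) := by
  have hi : (2 * m - 1) + 1 = 2 * m := by omega
  have h1 := temp hm hα
  have h2 := real hd hα
  have hm2 : (((2 * m - 1 : ℕ) : ℝ) / 2) = (m : ℝ) - 1 / 2 := by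
    have : ((2 * m - 1 : ℕ) : ℝ) = 2 * m - 1 := by
      rw [Nat.cast_sub (by omega)]
      push_cast
      ring
    rw [this]
    ring
  obtain ⟨r, l, e1, e2, e3, e4, e5⟩ := Pool.Agent.N41.RM.nf_law hi h1 h2 hF.1
    (fun s hs => hF.2 s hs) hγ
  have hW : ∀ T, rotSum m α γ T = Pool.Agent.N41.RM.rmn Pool.Agent.N41.RM.qv
    (Pool.Agent.N41.RM.av m α) γ T := fun T => sum_eq γ T
  have hL : Lam γ = Pool.Agent.W187.UR.Lam γ := rfl
  have hquot : ∀ ρ : ℤ, quot m α γ ρ = fun T : ℝ => Complex.exp (Pool.Agent.N41.RM.rmn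
      Pool.Agent.N41.RM.qv (Pool.Agent.N41.RM.av m α) γ T) / (T : ℂ) ^ ρ := by
    intro ρ
    funext T
    unfold quot
    rw [hW]
  have main : ∀ (ρ : ℤ) (B : ℝ), B ≠ 0 → List.TFAE [
      meromorphicOrderAt F m = ρ ∧ meromorphicTrailingCoeffAt F m = B,
      Tendsto (quot m α γ ρ) atTop (𝓝 (Complex.exp (-(ρ * Lam γ)) / B)),
      ∃ t : ℕ → ℝ, Tendsto t atTop atTop ∧
        Tendsto (fun k => quot m α γ ρ (t k)) atTop (𝓝 (Complex.exp (-(ρ * Lam γ)) / B))] := by
    intro ρ B hB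
    tfae_have 1 → 2 := by
      rintro ⟨h3, h4⟩
      rw [e1] at h3
      rw [e2] at h4
      have h5 : r = ρ := by exact_mod_cast h3
      have h6 : l = B := by exact_mod_cast h4
      subst h5
      subst h6
      rw [hquot, hL]
      exact e5
    tfae_have 2 → 3 := by
      intro h3
      exact ⟨fun k => (k : ℝ), tendsto_natCast_atTop_atTop, h3.comp tendsto_natCast_atTop_atTop⟩
    tfae_have 3 → 1 := by
      rintro ⟨t, ht, h3⟩
      rw [hquot, hL] at h3
      obtain ⟨h4, h5⟩ := Pool.Agent.N41.RM.iff_abs e3 e5 ρ hB ht h3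
      rw [e1, e2, h4, h5]
      exact ⟨rfl, rfl⟩
    tfae_finish
  refine ⟨fun s hs => ?_, fun T hT => ?_, ⟨r, l, e1, e2, e3, ?_⟩, main, fun ρ B hB => ?_⟩
  · have h3 := Pool.Agent.N41.RM.hasProd_nf hi h1 h2 (s := s) (by rw [hm2]; linarith)
    rw [hF.2 s hs]
    exact h3
  · have E := Pool.Agent.N41.RM.en_nf hi h1 h2
    have h3 := E.rterm_summable γ hT
    refine h3.congr fun x => ?_
    rw [term_eq]
  · refine e4.congr_left fun T => ?_
    rw [hW, hL]
    rfl
  · have key : ∀ c : ℚ, c ≠ 0 → ((meromorphicOrderAt F m = ρ ∧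
        meromorphicTrailingCoeffAt F m = (((c : ℝ) * B : ℝ) : ℂ)) ↔
        Tendsto (quot m α γ ρ) atTop
          (𝓝 (Complex.exp (-(ρ * Lam γ)) / (((c : ℝ) * B : ℝ) : ℂ)))) := fun c hc =>
      (main ρ (c * B) (mul_ne_zero (by exact_mod_cast hc) hB)).out 0 1
    constructor
    · rintro ⟨h3, c, hc, h4⟩
      refine ⟨c, hc, ?_⟩
      have h5 := (key c hc).1 ⟨h3, by rw [h4]; push_cast; ring⟩
      push_cast at h5
      exact h5
    · rintro ⟨c, hc, h3⟩
      have h5 := (key c hc).2 (by push_cast; exact h3)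
      refine ⟨h5.1, c, hc, ?_⟩
      rw [h5.2]
      push_cast
      ring

end Pool.Agent.Results.MP_29b22a_nt.RotatedLeadingTerm
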